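import Pool.Agent.Helper5.ST.GoalsB

/-!
Packet DIRECT of MP_f1caa3_al (helper5): separated points times a ball.
-/

namespace Pool.Agent.Helper32.Spec

open Pool.Agent.Helper5.Gap Pool.Agent.Helper5.ST
open scoped InnerProductSpace

universe u

theorem direct (hnr : Pool.Agent.Helper5.ST.SNrApi.{u}) : Pool.Agent.Helper5.ST.SDirect.{u} := by
  intro G _ X V _ _ π b E _ β ε hAA hX S₁ ℓ m m₁ φ T hS₁ hφ hTm hTsep hlt
  classical
  have hβ := hAA.β0
  have hε := hAA.ε0
  have hb : ∀ (a : ℕ) (g : G), g ∈ ball X a → ‖b g‖ ≤ a * β := fun a g hg =>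
    (hnr G X V π b E β ε hAA a a g g hg hg).1
  have hP : ∀ (a : ℕ) (g : G), g ∈ ball X a → ∀ v,
      ‖E.starProjection (π g v)‖ ≤ ‖E.starProjection v‖ + a * ε * ‖v‖ := fun a g hg =>
    (hnr G X V π b E β ε hAA a a g g hg hg).2.2.1
  have hb1 : b 1 = 0 := by
    have := hAA.coc 1 1
    simp at this
    exact this
  have hbinv : ∀ g, b g⁻¹ = - π g⁻¹ (b g) := by
    intro g
    have := hAA.coc g⁻¹ g
    rw [inv_mul_cancel, hb1] at this
    exact eq_neg_of_add_eq_zero_left this.symm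
  rcases S₁.eq_empty_or_nonempty with hS | ⟨s₀, hs₀⟩
  · -- trivial case
    have hball : ball S₁ m₁ = {1} := by
      ext g
      constructor
      · rintro ⟨l, _, hl, rfl⟩
        cases l with
        | nil => simp
        | cons a l =>
          exfalso
          have := hl a (by simp)
          simp [hS] at this
      · intro hg
        rw [Set.mem_singleton_iff.1 hg]
        exact one_mem_ball m₁
    have h1 : growth S₁ m₁ = 1 := by
      unfold growth
      rw [hball, Set.ncard_singleton]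
    rw [h1, mul_one]
    exact card_le_growth hX T fun t ht => ball_mono (by omega) (hTm t ht)
  have hφ0 : 0 ≤ φ := (norm_nonneg _).trans (hφ s₀ hs₀)
  -- one letter
  have hlet : ∀ y : G, (y ∈ S₁ ∨ y⁻¹ ∈ S₁) → y ∈ ball X ℓ ∧
      ‖E.starProjection (b y)‖ ≤ φ + ε * β * (ℓ : ℝ) ^ 2 := by
    intro y hy
    have h0 : 0 ≤ ε * β * (ℓ : ℝ) ^ 2 := by positivity
    rcases hy with hy | hy
    · exact ⟨hS₁ hy, (hφ y hy).trans (by linarith)⟩
    · have hy' : y ∈ ball X ℓ := by
        have := inv_mem_ball (hS₁ hy)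
        rwa [inv_inv] at this
      refine ⟨hy', ?_⟩
      have h1 : b y = - π y (b y⁻¹) := by
        have := hbinv y⁻¹
        rwa [inv_inv] at this
      rw [h1, map_neg, norm_neg]
      refine (hP ℓ y hy' _).trans ?_
      have h2 := hφ y⁻¹ hy
      have h3 := hb ℓ y⁻¹ (hS₁ hy)
      have h4 : (ℓ : ℝ) * ε * ‖b y⁻¹‖ ≤ ℓ * ε * (ℓ * β) :=
        mul_le_mul_of_nonneg_left h3 (by positivity)
      calc ‖E.starProjection (b y⁻¹)‖ + ℓ * ε * ‖b y⁻¹‖ ≤ φ + ℓ * ε * (ℓ * β) := by linarith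
        _ = φ + ε * β * (ℓ : ℝ) ^ 2 := by ring
  -- words
  have hword : ∀ l : List G, (∀ y ∈ l, y ∈ S₁ ∨ y⁻¹ ∈ S₁) →
      l.prod ∈ ball X (l.length * ℓ) ∧
      ‖E.starProjection (b l.prod)‖ ≤ l.length * φ + ε * β * (l.length * ℓ : ℝ) ^ 2 := by
    intro l
    induction l with
    | nil =>
      intro _
      refine ⟨by simpa using one_mem_ball (X := X) 0, ?_⟩
      simp [hb1]
    | cons y l ih =>
      intro hl
      obtain ⟨ih1, ih2⟩ := ih fun z hz => hl z (List.mem_cons_of_mem _ hz)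
      obtain ⟨hy1, hy2⟩ := hlet y (hl y List.mem_cons_self)
      rw [List.prod_cons, List.length_cons]
      refine ⟨ball_mono (by rw [Nat.succ_mul]; omega) (mul_mem_ball hy1 ih1), ?_⟩
      rw [hAA.coc, map_add]
      have h3 := hb _ _ ih1
      have h4 := hP ℓ y hy1 (b l.prod)
      have h5 : (ℓ : ℝ) * ε * ‖b l.prod‖ ≤ ℓ * ε * ((l.length * ℓ : ℕ) * β) :=
        mul_le_mul_of_nonneg_left h3 (by positivity)
      push_cast at h5 ⊢
      have h6 := norm_add_le (E.starProjection (b y)) (E.starProjection (π y (b l.prod)))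
      have h7 : 0 ≤ ε * β * (ℓ : ℝ) ^ 2 * l.length := by positivity
      nlinarith
  -- points of the ball
  have hx : ∀ x ∈ ball S₁ m₁, x ∈ ball X (m₁ * ℓ) ∧
      ‖E.starProjection (b x)‖ ≤ m₁ * φ + ε * β * (m₁ * ℓ : ℝ) ^ 2 := by
    rintro x ⟨l, hlen, hl, rfl⟩
    obtain ⟨h1, h2⟩ := hword l hl
    refine ⟨ball_mono (Nat.mul_le_mul_right _ hlen) h1, h2.trans ?_⟩
    have h3 : (l.length : ℝ) ≤ m₁ := by exact_mod_cast hlen
    have h4 : (l.length : ℝ) * ℓ ≤ m₁ * ℓ := mul_le_mul_of_nonneg_right h3 (by positivity)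
    have h5 : ((l.length : ℝ) * ℓ) ^ 2 ≤ (m₁ * ℓ) ^ 2 := by
      apply pow_le_pow_left₀ (by positivity) h4
    have h6 : (l.length : ℝ) * φ ≤ m₁ * φ := mul_le_mul_of_nonneg_right h3 hφ0
    have h7 : ε * β * ((l.length : ℝ) * ℓ) ^ 2 ≤ ε * β * (m₁ * ℓ) ^ 2 :=
      mul_le_mul_of_nonneg_left h5 (by positivity)
    linarith
  have hS₁fin : S₁.Finite := (ball_finite hX ℓ).subset hS₁
  set B : Finset G := (ball_finite hS₁fin m₁).toFinset with hB
  have hBcard : B.card = growth S₁ m₁ := by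
    unfold growth
    rw [Set.ncard_eq_toFinset_card _ (ball_finite hS₁fin m₁)]
  have hBmem : ∀ x ∈ B, x ∈ ball S₁ m₁ := fun x hx => by
    rwa [hB, Set.Finite.mem_toFinset] at hx
  have htx : ∀ t ∈ T, ∀ x ∈ B, ‖E.starProjection (π t (b x))‖ ≤
      m₁ * φ + ε * β * (m₁ * ℓ : ℝ) ^ 2 + ε * β * m * (m₁ * ℓ) := by
    intro t ht x hxB
    obtain ⟨h1, h2⟩ := hx x (hBmem x hxB)
    have h3 := hP m t (hTm t ht) (b x)
    have h4 := hb _ _ h1
    have h5 : (m : ℝ) * ε * ‖b x‖ ≤ m * ε * ((m₁ * ℓ : ℕ) * β) :=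
      mul_le_mul_of_nonneg_left h4 (by positivity)
    push_cast at h5
    nlinarith
  have hinj : Set.InjOn (fun p : G × G => p.1 * p.2) ((T ×ˢ B : Finset (G × G)) : Set (G × G)) := by
    rintro ⟨t, x⟩ h1 ⟨t', x'⟩ h2 h12
    simp only [Finset.coe_product, Set.mem_prod, Finset.mem_coe] at h1 h2 h12
    by_cases htt : t = t'
    · subst htt
      have := mul_left_cancel h12
      rw [this]
    · exfalso
      have h3 := hTsep t h1.1 t' h2.1 htt
      have h4 : b t - b t' = π t' (b x') - π t (b x) := by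
        have := hAA.coc t x
        have h5 := hAA.coc t' x'
        rw [h12, h5] at this
        rw [sub_eq_sub_iff_add_eq_add]
        rw [← this]
        abel
      rw [h4, map_sub] at h3
      have h5 := norm_sub_le (E.starProjection (π t' (b x'))) (E.starProjection (π t (b x)))
      have h6 := htx t' h2.1 x' h2.2
      have h7 := htx t h1.1 x h1.2
      linarith
  calc T.card * growth S₁ m₁ = (T ×ˢ B).card := by rw [Finset.card_product, hBcard]
    _ = ((T ×ˢ B).image fun p : G × G => p.1 * p.2).card := (Finset.card_image_of_injOn hinj).symm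
    _ ≤ growth X (m + m₁ * ℓ) := by
      refine card_le_growth hX _ fun g hg => ?_
      obtain ⟨⟨t, x⟩, hp, rfl⟩ := Finset.mem_image.1 hg
      obtain ⟨ht, hxB⟩ := Finset.mem_product.1 hp
      exact mul_mem_ball (hTm t ht) (hx x (hBmem x hxB)).1

end Pool.Agent.Helper32.Spec
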