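import Pool.Agent.Helper32.Spec.Core
import Pool.Agent.Helper5.ST.GoalsA

/-!
Packet SPEC of MP_f1caa3_al.
-/

namespace Pool.Agent.Helper32.Spec

universe u

theorem spec : Pool.Agent.Helper5.ST.SSpec.{u} := by
  intro V _ _ ι t c x hc hsum d hd
  exact core V ι t c x hc hsum d hd

end Pool.Agent.Helper32.Spec
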