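import Pool.Agent.Helper5.ST.GoalsC

/-!
Small packets of MP_f1caa3_al (helper5): GSUB, TR, RKADD, RKFIN, RKMAP, VNOVER.
-/

namespace Pool.Agent.Helper32.Spec

open Pool.Agent.Helper5.Gap Pool.Agent.Helper5.ST
open scoped commutatorElement

universe u

theorem gsub : Pool.Agent.Helper5.ST.SGsub.{u} := by
  intro G _ X Y ℓ hX hY n
  have key : ∀ l : List G, (∀ x ∈ l, x ∈ Y ∨ x⁻¹ ∈ Y) → l.prod ∈ ball X (ℓ * l.length) := by
    intro l
    induction l with
    | nil => intro _; simpa using one_mem_ball (X := X) 0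
    | cons y l ih =>
      intro hl
      have h1 := ih fun z hz => hl z (List.mem_cons_of_mem _ hz)
      have hy : y ∈ ball X ℓ := by
        rcases hl y List.mem_cons_self with h | h
        · exact hY h
        · have := inv_mem_ball (hY h)
          rwa [inv_inv] at this
      rw [List.prod_cons, List.length_cons, Nat.mul_succ, add_comm]
      exact mul_mem_ball hy h1
  have hsub : ball Y n ⊆ ball X (ℓ * n) := by
    rintro g ⟨l, hl, hx, rfl⟩
    exact ball_mono (Nat.mul_le_mul_left _ hl) (key l hx)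
  exact ⟨hsub, Set.ncard_le_ncard hsub (ball_finite hX _)⟩

theorem tr : Pool.Agent.Helper5.ST.STr.{u} := by
  intro H G _ _ f hf S K n _
  have hlift : ∀ l : List G, (∀ x ∈ l, x ∈ f '' S ∨ x⁻¹ ∈ f '' S) →
      ∃ l' : List H, l'.length = l.length ∧ (∀ x ∈ l', x ∈ S ∨ x⁻¹ ∈ S) ∧ l'.map f = l := by
    intro l
    induction l with
    | nil => intro _; exact ⟨[], rfl, by simp, rfl⟩
    | cons y l ih =>
      intro hl
      obtain ⟨l', h1, h2, h3⟩ := ih fun z hz => hl z (List.mem_cons_of_mem _ hz)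
      obtain ⟨z, hz, hzy⟩ : ∃ z, (z ∈ S ∨ z⁻¹ ∈ S) ∧ f z = y := by
        rcases hl y List.mem_cons_self with ⟨z, hz, hzy⟩ | ⟨z, hz, hzy⟩
        · exact ⟨z, Or.inl hz, hzy⟩
        · exact ⟨z⁻¹, Or.inr (by rwa [inv_inv]), by rw [map_inv, hzy, inv_inv]⟩
      refine ⟨z :: l', by simp [h1], ?_, by simp [h3, hzy]⟩
      intro x hx
      rcases List.mem_cons.1 hx with rfl | hx
      · exact hz
      · exact h2 x hx
  have hball : ∀ n, f '' ball S n = ball (f '' S) n := by
    intro n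
    ext g
    constructor
    · rintro ⟨h, ⟨l, hl, hx, rfl⟩, rfl⟩
      refine ⟨l.map f, by simpa using hl, ?_, by rw [map_list_prod]⟩
      intro x hx'
      obtain ⟨y, hy, rfl⟩ := List.mem_map.1 hx'
      rcases hx y hy with h | h
      · exact Or.inl ⟨y, h, rfl⟩
      · exact Or.inr ⟨y⁻¹, h, by rw [map_inv]⟩
    · rintro ⟨l, hl, hx, rfl⟩
      obtain ⟨l', h1, h2, h3⟩ := hlift l hx
      exact ⟨l'.prod, ⟨l', by omega, h2, rfl⟩, by rw [map_list_prod, h3]⟩
  refine ⟨hball n, ?_, ?_⟩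
  · unfold growth
    rw [← hball, Set.ncard_image_of_injective _ hf]
  · induction n with
    | zero => rfl
    | succ n ih =>
      ext y
      constructor
      · rintro ⟨h, ⟨g, hg, a, ha, b, hb, rfl⟩, rfl⟩
        refine ⟨f g, ?_, f a, ?_, f b, ?_, ?_⟩
        · rw [← hball]; exact ⟨g, hg, rfl⟩
        · rw [← ih]; exact ⟨a, ha, rfl⟩
        · rw [← ih]; exact ⟨b, hb, rfl⟩
        · simp [commutatorElement_def]
      · rintro ⟨g, hg, a, ha, b, hb, rfl⟩
        rw [← hball] at hg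
        rw [← ih] at ha hb
        obtain ⟨g, hg, rfl⟩ := hg
        obtain ⟨a, ha, rfl⟩ := ha
        obtain ⟨b, hb, rfl⟩ := hb
        exact ⟨g * ⁅a, b⁆ * g⁻¹, ⟨g, hg, a, ha, b, hb, rfl⟩, by simp [commutatorElement_def]⟩

theorem rkAdd : Pool.Agent.Helper5.ST.SRkAdd.{u} := by
  intro G _ A B C m n hBA hAB hBC X hXA k φ hφ hφC hspan
  -- the part in `B`
  let φ' : (X ⊓ B : Subgroup G) → (Fin k → ℚ) := fun x => φ ⟨x, x.2.1⟩
  let V₁ : Submodule ℚ (Fin k → ℚ) := Submodule.span ℚ (Set.range φ')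
  have hmem : ∀ x, φ' x ∈ V₁ := fun x => Submodule.subset_span ⟨x, rfl⟩
  let f : (X ⊓ B : Subgroup G) → V₁ := fun x => ⟨φ' x, hmem x⟩
  have hf : Submodule.span ℚ (Set.range f) = ⊤ := by
    apply Submodule.map_injective_of_injective (f := V₁.subtype) V₁.injective_subtype
    rw [Submodule.map_span, Submodule.map_top, Submodule.range_subtype, ← Set.range_comp]
    rfl
  let e₁ : V₁ ≃ₗ[ℚ] (Fin (Module.finrank ℚ V₁) → ℚ) := (Module.finBasis ℚ V₁).equivFun
  have h1 : Module.finrank ℚ V₁ ≤ n := by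
    refine hBC (X ⊓ B) inf_le_right _ (fun x => e₁ (f x)) ?_ ?_ ?_
    · intro x y
      have : f (x * y) = f x + f y := by
        apply Subtype.ext
        exact hφ ⟨(x : G), x.2.1⟩ ⟨(y : G), y.2.1⟩
      rw [this, map_add]
    · intro x hx
      have : f x = 0 := by
        apply Subtype.ext
        exact hφC _ hx
      rw [this, map_zero]
    · have : Set.range (fun x => e₁ (f x)) = e₁ '' (Set.range f) := by
        rw [← Set.range_comp]; rfl
      rw [this]
      have h2 := Submodule.map_span e₁.toLinearMap (Set.range f)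
      rw [hf, Submodule.map_top, LinearEquiv.range] at h2
      exact h2.symm
  -- the quotient
  let e₂ : ((Fin k → ℚ) ⧸ V₁) ≃ₗ[ℚ] (Fin (Module.finrank ℚ ((Fin k → ℚ) ⧸ V₁)) → ℚ) :=
    (Module.finBasis ℚ ((Fin k → ℚ) ⧸ V₁)).equivFun
  have h2 : Module.finrank ℚ ((Fin k → ℚ) ⧸ V₁) ≤ m := by
    refine hAB X hXA _ (fun x => e₂ (V₁.mkQ (φ x))) ?_ ?_ ?_
    · intro x y
      rw [hφ, map_add, map_add]
    · intro x hx
      have : V₁.mkQ (φ x) = 0 := by
        rw [Submodule.mkQ_apply, Submodule.Quotient.mk_eq_zero]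
        exact hmem ⟨x, x.2, hx⟩
      rw [this, map_zero]
    · have : Set.range (fun x => e₂ (V₁.mkQ (φ x))) =
          ((e₂ : _ →ₗ[ℚ] _) ∘ₗ V₁.mkQ) '' (Set.range φ) := by
        rw [← Set.range_comp]; rfl
      rw [this, ← Submodule.map_span, hspan, Submodule.map_top, LinearMap.range_comp,
        Submodule.range_mkQ, Submodule.map_top, LinearEquiv.range]
  have h3 := Submodule.finrank_quotient_add_finrank V₁
  rw [Module.finrank_fin_fun] at h3
  omega

theorem rkFin : Pool.Agent.Helper5.ST.SRkFin.{u} := by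
  intro G _ H hH X _ m φ hφ hφH hspan
  have h1 : φ 1 = 0 := by
    have := hφ 1 1
    rw [one_mul] at this
    exact left_eq_add.1 this
  have hpow : ∀ (x : X) (e : ℕ), φ (x ^ e) = (e : ℚ) • φ x := by
    intro x e
    induction e with
    | zero => simp [h1]
    | succ e ih => rw [pow_succ, hφ, ih]; push_cast; rw [add_smul, one_smul]
  have hzero : ∀ x, φ x = 0 := by
    intro x
    obtain ⟨e, he, _, hxe⟩ := Subgroup.exists_pow_mem_of_index_ne_zero hH.index_ne_zero (x : G)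
    have h2 := hφH (x ^ e) (by simpa using hxe)
    rw [hpow] at h2
    have h3 : (e : ℚ) ≠ 0 := by exact_mod_cast he.ne'
    exact (smul_eq_zero.1 h2).resolve_left h3
  by_contra hm
  have hm' : 0 < m := by omega
  have hr : Set.range φ ⊆ {0} := by
    rintro _ ⟨x, rfl⟩
    exact hzero x
  have h4 : Submodule.span ℚ (Set.range φ) ≤ ⊥ := by
    rw [Submodule.span_le]
    intro y hy
    simpa using hr hy
  rw [hspan, top_le_iff] at h4
  have h5 : (fun _ : Fin m => (1 : ℚ)) ∈ (⊥ : Submodule ℚ (Fin m → ℚ)) := by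
    rw [h4]; trivial
  have h6 := congrFun ((Submodule.mem_bot ℚ).1 h5) ⟨0, hm'⟩
  simp at h6

theorem rkMap : Pool.Agent.Helper5.ST.SRkMap.{u} := by
  intro G _ P n hP X hX m φ hφ hφ0 hspan
  refine hP (X.subgroupOf P) le_top m (fun y => φ ⟨((y : P) : G), y.2⟩) ?_ ?_ ?_
  · intro x y
    exact hφ ⟨((x : P) : G), x.2⟩ ⟨((y : P) : G), y.2⟩
  · intro x hx
    apply hφ0
    rw [Subgroup.mem_bot] at hx ⊢
    simp [hx]
  · rw [← hspan]
    congr 1
    ext y
    constructor
    · rintro ⟨x, rfl⟩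
      exact ⟨_, rfl⟩
    · rintro ⟨x, rfl⟩
      exact ⟨⟨⟨(x : G), hX x.2⟩, x.2⟩, rfl⟩

theorem vnOver : Pool.Agent.Helper5.ST.SVnOver.{u} := by
  rintro G _ H hH ⟨C, hC, hCn⟩
  refine ⟨C.map H.subtype, ?_, ?_⟩
  · constructor
    rw [Subgroup.index_map_subtype]
    exact mul_ne_zero hC.index_ne_zero hH.index_ne_zero
  · have := hCn
    exact Group.nilpotent_of_mulEquiv (C.equivMapOfInjective H.subtype H.subtype_injective)

end Pool.Agent.Helper32.Spec
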