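import Mathlib

/-!
Packet SPEC (helper5, MP_f1caa3_al): a spectral gap for a finite rank positive operator.
-/

namespace Pool.Agent.Helper32.Spec

open scoped InnerProductSpace

universe u

section op

variable {V : Type*} [NormedAddCommGroup V] [InnerProductSpace ℝ V] {ι : Type*}

/-- The operator `v ↦ ∑ c_i ⟨x_i, v⟩ x_i`. -/
noncomputable def op (t : Finset ι) (c : ι → ℝ) (x : ι → V) : V →ₗ[ℝ] V where
  toFun v := ∑ i ∈ t, (c i * ⟪x i, v⟫_ℝ) • x i
  map_add' u v := by
    rw [← Finset.sum_add_distrib]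
    refine Finset.sum_congr rfl fun i _ => ?_
    rw [inner_add_right, mul_add, add_smul]
  map_smul' r v := by
    rw [RingHom.id_apply, Finset.smul_sum]
    refine Finset.sum_congr rfl fun i _ => ?_
    rw [real_inner_smul_right, smul_smul]
    congr 1
    ring

theorem op_apply (t : Finset ι) (c : ι → ℝ) (x : ι → V) (v : V) :
    op t c x v = ∑ i ∈ t, (c i * ⟪x i, v⟫_ℝ) • x i := rfl

theorem inner_op (t : Finset ι) (c : ι → ℝ) (x : ι → V) (v w : V) :
    ⟪op t c x v, w⟫_ℝ = ∑ i ∈ t, c i * ⟪x i, v⟫_ℝ * ⟪x i, w⟫_ℝ := by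
  rw [op_apply, sum_inner]
  refine Finset.sum_congr rfl fun i _ => ?_
  rw [real_inner_smul_left]

theorem op_symm (t : Finset ι) (c : ι → ℝ) (x : ι → V) (v w : V) :
    ⟪op t c x v, w⟫_ℝ = ⟪v, op t c x w⟫_ℝ := by
  rw [inner_op, real_inner_comm, inner_op]
  refine Finset.sum_congr rfl fun i _ => ?_
  ring

/-- Diagonalization of the operator by a finite orthonormal family. -/
theorem diag (t : Finset ι) (c : ι → ℝ) (x : ι → V) :
    ∃ (n : ℕ) (e : Fin n → V) (l : Fin n → ℝ), Orthonormal ℝ e ∧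
      (∀ j, op t c x (e j) = l j • e j) ∧
      (∀ i ∈ t, ∑ j, ⟪e j, x i⟫_ℝ ^ 2 = ‖x i‖ ^ 2) ∧
      (∀ v, op t c x v = ∑ j, (l j * ⟪e j, v⟫_ℝ) • e j) := by
  classical
  let W : Submodule ℝ V := Submodule.span ℝ (x '' (t : Set ι))
  have : FiniteDimensional ℝ W := FiniteDimensional.span_of_finite ℝ (t.finite_toSet.image x)
  have hxW : ∀ i ∈ t, x i ∈ W := fun i hi => Submodule.subset_span ⟨i, hi, rfl⟩
  have hTW : ∀ v, op t c x v ∈ W := fun v =>
    Submodule.sum_mem _ fun i hi => W.smul_mem _ (hxW i hi)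
  let T' : W →ₗ[ℝ] W := (op t c x).restrict (fun v _ => hTW v)
  have hT'a : ∀ w : W, ((T' w : W) : V) = op t c x (w : V) := fun w => rfl
  have hsym : T'.IsSymmetric := by
    intro v w
    rw [Submodule.coe_inner, Submodule.coe_inner, hT'a, hT'a]
    exact op_symm t c x _ _
  obtain ⟨n, hn⟩ : ∃ n, Module.finrank ℝ W = n := ⟨_, rfl⟩
  let b := hsym.eigenvectorBasis hn
  let l := hsym.eigenvalues hn
  have hb : ∀ j, op t c x (b j : V) = l j • (b j : V) := by
    intro j
    have := hsym.apply_eigenvectorBasis hn j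
    have h2 := congrArg (fun w : W => (w : V)) this
    exact h2
  have hpars : ∀ w : W, ∑ j, ⟪((b j : W) : V), (w : V)⟫_ℝ ^ 2 = ‖(w : V)‖ ^ 2 := by
    intro w
    have := b.sum_sq_inner_right w
    simpa using this
  have hrep : ∀ w : W, ∑ j, ⟪((b j : W) : V), (w : V)⟫_ℝ • ((b j : W) : V) = (w : V) := by
    intro w
    have := congrArg (fun w : W => (w : V)) (b.sum_repr' w)
    simpa using this
  refine ⟨n, fun j => (b j : V), l, ?_, hb, ?_, ?_⟩
  · have := b.orthonormal
    exact this.comp_linearIsometry W.subtypeₗᵢ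
  · intro i hi
    exact hpars ⟨x i, hxW i hi⟩
  · intro v
    have h1 := hrep ⟨op t c x v, hTW v⟩
    simp only at h1
    rw [← h1]
    refine Finset.sum_congr rfl fun j _ => ?_
    rw [← op_symm, hb, real_inner_smul_left]

end op

/-- SPEC, the core statement. -/
theorem core (V : Type u) [NormedAddCommGroup V] [InnerProductSpace ℝ V] (ι : Type u)
    (t : Finset ι) (c : ι → ℝ) (x : ι → V) (hc : ∀ i ∈ t, 0 ≤ c i)
    (hsum : ∑ i ∈ t, c i * ‖x i‖ ^ 2 ≤ 1) (d : ℕ) (hd : 1 ≤ d) :
    ∃ (E : Submodule ℝ V) (_ : FiniteDimensional ℝ E) (θ : ℝ),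
    Module.finrank ℝ E ≤ 160 * d ∧ 0 ≤ θ ∧ θ ≤ 1 / (80 * d) ∧
    (∀ v ∈ E, ∑ i ∈ t, (c i * ⟪x i, v⟫_ℝ) • x i ∈ E) ∧
    (∀ v ∈ E, (θ + 1 / (26000 * d ^ 2)) * ‖v‖ ^ 2 ≤ ∑ i ∈ t, c i * ⟪x i, v⟫_ℝ ^ 2) ∧
    (∀ v ∈ Eᗮ, ∑ i ∈ t, c i * ⟪x i, v⟫_ℝ ^ 2 ≤ θ * ‖v‖ ^ 2) := by
  classical
  obtain ⟨n, e, l, he, heig, hpars, hop⟩ := diag t c x
  have hd0 : (0 : ℝ) < d := by exact_mod_cast hd
  -- the quadratic form
  have hquad : ∀ v, ∑ i ∈ t, c i * ⟪x i, v⟫_ℝ ^ 2 = ∑ j, l j * ⟪e j, v⟫_ℝ ^ 2 := by
    intro v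
    have h1 : ⟪op t c x v, v⟫_ℝ = ∑ i ∈ t, c i * ⟪x i, v⟫_ℝ ^ 2 := by
      rw [inner_op]
      exact Finset.sum_congr rfl fun i _ => by ring
    rw [← h1, hop v, sum_inner]
    refine Finset.sum_congr rfl fun j _ => ?_
    rw [real_inner_smul_left]
    ring
  have hl : ∀ j, l j = ∑ i ∈ t, c i * ⟪x i, e j⟫_ℝ ^ 2 := by
    intro j
    rw [hquad, Finset.sum_eq_single j]
    · rw [real_inner_self_eq_norm_sq, he.1 j]; ring
    · intro k _ hk
      rw [he.2 hk]; ring
    · intro h; exact absurd (Finset.mem_univ j) h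
  have hl0 : ∀ j, 0 ≤ l j := by
    intro j
    rw [hl j]
    exact Finset.sum_nonneg fun i hi => mul_nonneg (hc i hi) (sq_nonneg _)
  have hlsum : ∑ j, l j ≤ 1 := by
    calc ∑ j, l j = ∑ j, ∑ i ∈ t, c i * ⟪x i, e j⟫_ℝ ^ 2 := Finset.sum_congr rfl fun j _ => hl j
      _ = ∑ i ∈ t, ∑ j, c i * ⟪x i, e j⟫_ℝ ^ 2 := Finset.sum_comm
      _ = ∑ i ∈ t, c i * ‖x i‖ ^ 2 := by
        refine Finset.sum_congr rfl fun i hi => ?_
        rw [← Finset.mul_sum, ← hpars i hi]
        congr 1
        refine Finset.sum_congr rfl fun j _ => ?_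
        rw [real_inner_comm]
      _ ≤ 1 := hsum
  -- pigeonhole
  set h : ℝ := 1 / (160 * d) with hh
  set D : ℝ := 1 / (25600 * d ^ 2) with hD
  have hh0 : 0 < h := by positivity
  have hD0 : 0 < D := by positivity
  have hhD : (160 * d : ℝ) * D = h := by
    rw [hh, hD]; field_simp; norm_num
  let S : Finset (Fin n) := Finset.univ.filter fun j => h < l j
  have hScard : S.card < 160 * d := by
    rcases S.eq_empty_or_nonempty with hS | hS
    · rw [hS, Finset.card_empty]; omega
    · have h1 : (S.card : ℝ) * h < 1 := by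
        calc (S.card : ℝ) * h = ∑ j ∈ S, h := by rw [Finset.sum_const, nsmul_eq_mul]
          _ < ∑ j ∈ S, l j := Finset.sum_lt_sum_of_nonempty hS fun j hj =>
              (Finset.mem_filter.1 hj).2
          _ ≤ ∑ j, l j := Finset.sum_le_sum_of_subset_of_nonneg (Finset.subset_univ _)
              fun j _ _ => hl0 j
          _ ≤ 1 := hlsum
      have h2 : (S.card : ℝ) < 160 * d := by
        rw [hh, mul_one_div, div_lt_one (by positivity)] at h1
        exact h1
      exact_mod_cast h2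
  obtain ⟨q, hq, hqn⟩ : ∃ q < 160 * d, ∀ j, h + q * D < l j → h + (q + 1) * D < l j := by
    by_contra hcon
    push Not at hcon
    obtain ⟨j0, _, _⟩ := hcon 0 (by omega)
    have : Nonempty (Fin n) := ⟨j0⟩
    choose! f hf1 hf2 using hcon
    have hinj : Set.InjOn f (Finset.range (160 * d) : Set ℕ) := by
      intro a ha b hb hab
      have ha' := Finset.mem_range.1 ha
      have hb' := Finset.mem_range.1 hb
      have h1 := hf1 a ha'
      have h2 := hf2 a ha'
      have h3 := hf1 b hb'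
      have h4 := hf2 b hb'
      rw [← hab] at h3 h4
      have h5 : (a : ℝ) < b + 1 := by
        by_contra hc'
        push Not at hc'
        nlinarith
      have h6 : (b : ℝ) < a + 1 := by
        by_contra hc'
        push Not at hc'
        nlinarith
      have h7 : a < b + 1 := by exact_mod_cast h5
      have h8 : b < a + 1 := by exact_mod_cast h6
      omega
    have hmaps : Set.MapsTo f (Finset.range (160 * d) : Set ℕ) (S : Set (Fin n)) := by
      intro a ha
      have h1 := hf1 a (Finset.mem_range.1 ha)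
      refine Finset.mem_coe.2 (Finset.mem_filter.2 ⟨Finset.mem_univ _, ?_⟩)
      have : 0 ≤ (a : ℝ) * D := by positivity
      linarith
    have := Finset.card_le_card_of_injOn f hmaps hinj
    rw [Finset.card_range] at this
    omega
  set θ : ℝ := h + q * D with hθ
  have hθ0 : 0 ≤ θ := by positivity
  have hθ1 : θ ≤ 1 / (80 * d) := by
    have h1 : (q : ℝ) * D ≤ (160 * d) * D := by
      have : (q : ℝ) ≤ 160 * d := by exact_mod_cast hq.le
      exact mul_le_mul_of_nonneg_right this hD0.le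
    have h2 : (1 : ℝ) / (80 * d) = h + h := by
      rw [hh]; field_simp; norm_num
    rw [h2, hθ]
    linarith
  let S' : Finset (Fin n) := Finset.univ.filter fun j => θ < l j
  have hS' : ∀ j, j ∈ S' ↔ θ < l j := fun j => by simp [S']
  have hS'S : S' ⊆ S := by
    intro j hj
    refine Finset.mem_filter.2 ⟨Finset.mem_univ _, ?_⟩
    have h1 := (hS' j).1 hj
    have : 0 ≤ (q : ℝ) * D := by positivity
    linarith
  let E : Submodule ℝ V := Submodule.span ℝ ((S'.image e : Finset V) : Set V)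
  have hfd : FiniteDimensional ℝ E := FiniteDimensional.span_finset ℝ _
  have heE : ∀ j ∈ S', e j ∈ E := fun j hj =>
    Submodule.subset_span (Finset.mem_coe.2 (Finset.mem_image_of_mem e hj))
  refine ⟨E, hfd, θ, ?_, hθ0, hθ1, ?_, ?_, ?_⟩
  · calc Module.finrank ℝ E ≤ (S'.image e).card := finrank_span_finset_le_card _
      _ ≤ S'.card := Finset.card_image_le
      _ ≤ S.card := Finset.card_le_card hS'S
      _ ≤ 160 * d := hScard.le
  · intro v hv
    have : op t c x v ∈ E := by
      induction hv using Submodule.span_induction with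
      | mem y hy =>
        obtain ⟨j, hj, rfl⟩ := Finset.mem_image.1 (Finset.mem_coe.1 hy)
        rw [heig j]
        exact E.smul_mem _ (heE j hj)
      | zero => rw [map_zero]; exact E.zero_mem
      | add a b _ _ ha hb => rw [map_add]; exact E.add_mem ha hb
      | smul r a _ ha => rw [map_smul]; exact E.smul_mem _ ha
    exact this
  · intro v hv
    -- inner products with the other vectors vanish
    have hperp : ∀ k, k ∉ S' → ⟪e k, v⟫_ℝ = 0 := by
      intro k hk
      induction hv using Submodule.span_induction with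
      | mem y hy =>
        obtain ⟨j, hj, rfl⟩ := Finset.mem_image.1 (Finset.mem_coe.1 hy)
        exact he.2 (fun h => hk (h ▸ hj))
      | zero => exact inner_zero_right _
      | add a b _ _ ha hb => rw [inner_add_right, ha, hb, add_zero]
      | smul r a _ ha => rw [real_inner_smul_right, ha, mul_zero]
    have hrep : v = ∑ j, ⟪e j, v⟫_ℝ • e j := by
      have : ∀ w ∈ E, w = ∑ j, ⟪e j, w⟫_ℝ • e j := by
        intro w hw
        induction hw using Submodule.span_induction with
        | mem y hy =>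
          obtain ⟨j, hj, rfl⟩ := Finset.mem_image.1 (Finset.mem_coe.1 hy)
          rw [Finset.sum_eq_single j]
          · rw [real_inner_self_eq_norm_sq, he.1 j]; simp
          · intro k _ hk
            rw [he.2 hk, zero_smul]
          · intro h; exact absurd (Finset.mem_univ j) h
        | zero => simp
        | add a b _ _ ha hb =>
          conv_lhs => rw [ha, hb]
          rw [← Finset.sum_add_distrib]
          exact Finset.sum_congr rfl fun j _ => by rw [inner_add_right, add_smul]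
        | smul r a _ ha =>
          conv_lhs => rw [ha]
          rw [Finset.smul_sum]
          exact Finset.sum_congr rfl fun j _ => by rw [real_inner_smul_right, smul_smul]
      exact this v hv
    have hnorm : ‖v‖ ^ 2 = ∑ j, ⟪e j, v⟫_ℝ ^ 2 := by
      rw [← real_inner_self_eq_norm_sq]
      conv_lhs => rw [hrep]
      rw [sum_inner]
      refine Finset.sum_congr rfl fun j _ => ?_
      rw [real_inner_smul_left, ← hrep]
      ring
    rw [hquad v, hnorm, Finset.mul_sum]
    refine Finset.sum_le_sum fun j _ => ?_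
    by_cases hj : j ∈ S'
    · refine mul_le_mul_of_nonneg_right ?_ (sq_nonneg _)
      have h1 := hqn j ((hS' j).1 hj)
      have h2 : (1 : ℝ) / (26000 * d ^ 2) ≤ D := by
        rw [hD]
        apply one_div_le_one_div_of_le (by positivity)
        have : (0 : ℝ) < (d : ℝ) ^ 2 := by positivity
        linarith
      rw [hθ]
      linarith
    · rw [hperp j hj]; simp
  · intro v hv
    have hperp : ∀ k ∈ S', ⟪e k, v⟫_ℝ = 0 := fun k hk =>
      (Submodule.mem_orthogonal E v).1 hv _ (heE k hk)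
    have hbess : ∑ j, ⟪e j, v⟫_ℝ ^ 2 ≤ ‖v‖ ^ 2 := by
      have := he.sum_inner_products_le v (s := Finset.univ)
      simpa using this
    rw [hquad v]
    calc ∑ j, l j * ⟪e j, v⟫_ℝ ^ 2 ≤ ∑ j, θ * ⟪e j, v⟫_ℝ ^ 2 := by
          refine Finset.sum_le_sum fun j _ => ?_
          by_cases hj : j ∈ S'
          · rw [hperp j hj]; simp
          · exact mul_le_mul_of_nonneg_right (not_lt.1 fun h => hj ((hS' j).2 h)) (sq_nonneg _)
      _ = θ * ∑ j, ⟪e j, v⟫_ℝ ^ 2 := by rw [Finset.mul_sum]
      _ ≤ θ * ‖v‖ ^ 2 := mul_le_mul_of_nonneg_left hbess hθ0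

end Pool.Agent.Helper32.Spec
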